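import Pool.Agent.LibGMM.Defs

/-!
Base definitions for THEOREM K (good minimal models for klt pairs on rational varieties with a torus
action of complexity at most two): multigraded rings of sections, the interface between the surface
part and the torus part, and the interface between the torus part and the construction of the good
minimal model.
-/

set_option autoImplicit false

open Pool.Agent.LibGMM

namespace Pool.Agent.LibK

section

variable {F : Type} [Field F] [Algebra ℂ F]

/-- The sections over the set of prime divisors `P` of the `ℚ`-divisor `D` (with round-down). -/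
def H0 (P : Set (DVal F)) (D : DVal F → ℚ) : Submodule ℂ F where
  carrier := {f | ∀ ν ∈ P, f ≠ 0 → 0 ≤ (ν.ord f : ℚ) + D ν}
  zero_mem' := by
    intro ν _ h
    exact absurd rfl h
  add_mem' := by
    intro a b ha hb ν hν hab
    by_cases h0 : a = 0
    · subst h0
      simp only [zero_add] at hab ⊢
      exact hb ν hν hab
    by_cases h1 : b = 0
    · subst h1
      simp only [add_zero] at hab ⊢
      exact ha ν hν hab
    have h2 := ν.ord_add a b h0 h1 hab
    have h3 := ha ν hν h0
    have h4 := hb ν hν h1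
    rcases min_le_iff.1 h2 with h5 | h5
    · have h6 : ((ν.ord a : ℤ) : ℚ) ≤ (ν.ord (a + b) : ℚ) := by exact_mod_cast h5
      linarith
    · have h6 : ((ν.ord b : ℤ) : ℚ) ≤ (ν.ord (a + b) : ℚ) := by exact_mod_cast h5
      linarith
  smul_mem' := by
    intro c a ha ν hν hca
    have h0 : a ≠ 0 := by
      rintro rfl
      exact hca (smul_zero c)
    have h1 : algebraMap ℂ F c ≠ 0 := by
      intro h
      apply hca
      rw [Algebra.smul_def, h, zero_mul]
    have h2 := ha ν hν h0
    rw [Algebra.smul_def, ν.ord_mul _ _ h1 h0, ν.ord_const, zero_add]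
    exact h2

theorem mem_H0 {P : Set (DVal F)} {D : DVal F → ℚ} {f : F} :
    f ∈ H0 P D ↔ ∀ ν ∈ P, f ≠ 0 → 0 ≤ (ν.ord f : ℚ) + D ν := Iff.rfl

theorem H0_mul {P : Set (DVal F)} {D E : DVal F → ℚ} {f g : F} (hf : f ∈ H0 P D)
    (hg : g ∈ H0 P E) : f * g ∈ H0 P (fun ν => D ν + E ν) := by
  intro ν hν hfg
  have h0 : f ≠ 0 := left_ne_zero_of_mul hfg
  have h1 : g ≠ 0 := right_ne_zero_of_mul hfg
  have h2 := hf ν hν h0
  have h3 := hg ν hν h1
  rw [ν.ord_mul _ _ h0 h1]
  push_cast
  linarith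

/-- The combination `∑ nᵢ Dᵢ`. -/
def comb {ι : Type} (D : ι → DVal F → ℚ) (n : ι →₀ ℕ) (ν : DVal F) : ℚ :=
  n.sum fun i m => (m : ℚ) * D i ν

theorem comb_zero {ι : Type} (D : ι → DVal F → ℚ) : comb D 0 = 0 := by
  funext ν
  simp [comb]

theorem comb_add {ι : Type} (D : ι → DVal F → ℚ) (n m : ι →₀ ℕ) :
    comb D (n + m) = fun ν => comb D n ν + comb D m ν := by
  classical
  funext ν
  unfold comb
  rw [Finsupp.sum_add_index']
  · intro i
    simp
  · intro i a b
    push_cast
    ring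

/-- The ring of sections of the combinations `∑ nᵢ Dᵢ` (`n ∈ ℕ^ι`) over the set of prime divisors
`P`: polynomials whose coefficient at `n` is a section of `∑ nᵢ Dᵢ`. -/
def secRing (P : Set (DVal F)) {ι : Type} (D : ι → DVal F → ℚ) :
    Subalgebra ℂ (MvPolynomial ι F) where
  carrier := {p | ∀ n : ι →₀ ℕ, MvPolynomial.coeff n p ∈ H0 P (comb D n)}
  mul_mem' := by
    classical
    intro a b ha hb n
    rw [MvPolynomial.coeff_mul]
    refine Submodule.sum_mem _ fun x hx => ?_
    have h1 : x.1 + x.2 = n := Finset.HasAntidiagonal.mem_antidiagonal.1 hx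
    have h2 := H0_mul (ha x.1) (hb x.2)
    rw [← h1, comb_add]
    exact h2
  add_mem' := by
    intro a b ha hb n
    rw [MvPolynomial.coeff_add]
    exact Submodule.add_mem _ (ha n) (hb n)
  algebraMap_mem' := by
    classical
    intro c n
    rw [MvPolynomial.algebraMap_apply, MvPolynomial.coeff_C]
    split_ifs with h
    · subst h
      intro ν _ _
      rw [comb_zero, ν.ord_const]
      simp
    · exact Submodule.zero_mem _

/-- `F` is a purely transcendental extension of `ℂ` generated by `x` and `y`. -/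
def IsPlane (x y : F) : Prop :=
  AlgebraicIndependent ℂ ![x, y] ∧ IntermediateField.adjoin ℂ {x, y} = ⊤

/-- Finiteness of zeros and poles on the set of prime divisors `P`. -/
def FinDiv (P : Set (DVal F)) : Prop :=
  ∀ f : F, f ≠ 0 → {ν | ν ∈ P ∧ ν.ord f ≠ 0}.Finite

/-- There is a degree: all prime divisors have degree `≥ 1`, and principal divisors have degree
`0`. -/
def HasDegree (P : Set (DVal F)) : Prop :=
  ∃ deg : DVal F → ℕ, (∀ ν ∈ P, 1 ≤ deg ν) ∧
    ∀ f : F, f ≠ 0 → ∑ᶠ ν ∈ P, ν.ord f * (deg ν : ℤ) = 0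

/-- `D = c (K + Γ)` up to `ℚ`-linear equivalence, where `c > 0` and `Γ` is an effective `ℚ`-divisor
with all coefficients `< 1`. -/
def IsAdjoint (P : Set (DVal F)) (K : DVal F → ℤ) (D : DVal F → ℚ) : Prop :=
  ∃ (c : ℚ) (Γ : DVal F → ℚ) (N : ℕ) (f : F), 0 < c ∧ 0 < N ∧ f ≠ 0 ∧
    {ν | ν ∈ P ∧ Γ ν ≠ 0}.Finite ∧ (∀ ν ∈ P, 0 ≤ Γ ν ∧ Γ ν < 1) ∧
    ∀ ν ∈ P, (N : ℚ) * D ν = (N : ℚ) * (c * ((K ν : ℚ) + Γ ν)) + (ν.ord f : ℚ)

/-- The adjoint rings over `P` are finitely generated (`K` is a canonical divisor; the `ℚ`-divisors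
`D i` are arbitrary, sections are those of the round-downs). -/
def AdjointFG (P : Set (DVal F)) (K : DVal F → ℤ) : Prop :=
  ∀ (k : ℕ) (D : Fin k → DVal F → ℚ), (∀ i, IsAdjoint P K (D i)) → (secRing P D).FG

/-- The prime divisors of the affine plane `Spec ℂ[x, y]`: the valuations `ν ≥ 0` on `x` and `y`
whose ring is a localisation of `ℂ[x, y]`. -/
def planePrimes (x y : F) : Set (DVal F) :=
  {ν | 0 ≤ ν.ord x ∧ 0 ≤ ν.ord y ∧
    ∀ f, 0 ≤ ν.ord f → ∃ a ∈ Algebra.adjoin ℂ {x, y}, ∃ b ∈ Algebra.adjoin ℂ {x, y},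
      b ≠ 0 ∧ ν.ord b = 0 ∧ f = a / b}

/-- **Interface of parts A, B with part C**: for every finite set `S` of divisorial valuations of
the field `ℂ(x, y)` there is a set of prime divisors `P` (those of a smooth projective surface) which
contains `S` and the prime divisors of the affine plane, and for which adjoint rings are finitely
generated. -/
def SurfaceInterface : Prop :=
  ∀ (F : Type) [Field F] [Algebra ℂ F] (x y : F), IsPlane x y →
    ∀ S : Set (DVal F), S.Finite → (∀ ν ∈ S, ν.Divisorial) →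
      ∃ P : Set (DVal F), S ⊆ P ∧ planePrimes x y ⊆ P ∧ (P \ planePrimes x y).Finite ∧
        (∀ ν ∈ P, ν.Divisorial) ∧ FinDiv P ∧ HasDegree P ∧
        ∀ ω : TopForm F, ω ≠ 0 → {ν | ν ∈ P ∧ canOrd ν ω ≠ 0}.Finite ∧
          AdjointFG P (fun ν => canOrd ν ω)

end

section

variable {K : Type} [Field K] [Algebra ℂ K]

/-- `D` is pseudo-effective. -/
def PseudoEff (X : NormalModel K) (D : DVal K → ℝ) : Prop :=
  ∀ ε : ℝ, 0 < ε → X.REffective fun Q => D Q + ε * X.hyperplane Q

/-- The prime divisors of `X`. -/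
def primes (X : NormalModel K) : Set (DVal K) := {Q | X.IsPrimeDiv Q}

/-- The hyperplane class with integral values: `- min ord_Q (X.g i)`. -/
noncomputable def hypZ (X : NormalModel K) (Q : DVal K) : ℤ :=
  - ⨅ i : X.ι, Q.ord (X.g i : K)

/-- `z₀, z₁, t₁, …, t_r` are algebraically independent and generate `K` as a field. -/
structure IsTorusField (r : ℕ) (z : Fin 2 → K) (t : Fin r → Kˣ) : Prop where
  indep : AlgebraicIndependent ℂ (Sum.elim z fun k => (t k : K))
  gen : IntermediateField.adjoin ℂ (Set.range z ∪ Set.range fun k => (t k : K)) = ⊤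

/-- The homogeneous coordinates of `X` are semi-invariant for the torus acting on the variables
`t`: `X.g i = fᵢ ∏ t_k ^ u_k` with `fᵢ ∈ ℂ(z₀, z₁)`. -/
def IsTorusStable {r : ℕ} (z : Fin 2 → K) (t : Fin r → Kˣ) (X : NormalModel K) : Prop :=
  ∀ i : X.ι, ∃ f ∈ IntermediateField.adjoin ℂ (Set.range z), ∃ u : Fin r → ℤ,
    (X.g i : K) = f * ∏ k, ((t k : K)) ^ u k

/-- Data for the construction of the good minimal model: `K + Δ` is `ℝ`-linearly equivalent to a
positive real combination `∑ cᵢ Eᵢ` of integral Weil divisors, such that the ring of sections of the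
combinations `∑ aᵢ Eᵢ + a (∑ Eᵢ + hyperplane)` (`aᵢ, a ∈ ℕ`) is finitely generated. -/
def HasFGData (X : NormalModel K) (ω : TopForm K) (Δ : DVal K → ℝ) : Prop :=
  ∃ (k : ℕ) (E : Fin k → DVal K → ℤ) (c : Fin k → ℝ), 0 < k ∧ (∀ i, 0 < c i) ∧
    (∀ i, {Q | Q ∈ primes X ∧ E i Q ≠ 0}.Finite) ∧
    X.RLinEq (lcDiv ω Δ) (fun Q => ∑ i, c i * (E i Q : ℝ)) ∧
    (secRing (primes X) (fun (o : Option (Fin k)) (Q : DVal K) =>
      match o with
      | some i => (E i Q : ℚ)
      | none => ((∑ i, E i Q : ℤ) : ℚ) + (hypZ X Q : ℚ))).FG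

/-- **Interface of part C** (torus). -/
def TorusInterface : Prop :=
  SurfaceInterface → ∀ (K : Type) [Field K] [Algebra ℂ K] (r : ℕ) (z : Fin 2 → K)
    (t : Fin r → Kˣ), IsTorusField r z t → ∀ X : NormalModel K, IsTorusStable z t X →
      ∀ (ω : TopForm K) (Δ : DVal K → ℝ), ω ≠ 0 → IsKlt X ω Δ → HasFGData X ω Δ

/-- **Interface of part D** (construction of the good minimal model). -/
def ModelInterface : Prop :=
  ∀ (K : Type) [Field K] [Algebra ℂ K] (X : NormalModel K) (ω : TopForm K) (Δ : DVal K → ℝ),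
    ω ≠ 0 → IsKlt X ω Δ → PseudoEff X (lcDiv ω Δ) → HasFGData X ω Δ →
      ∃ W : NormalModel K, IsGoodMinimalModel X ω Δ W

/-- The main theorem follows from the three interfaces. -/
theorem main_of_interfaces (hS : SurfaceInterface) (hT : TorusInterface) (hM : ModelInterface)
    (K : Type) [Field K] [Algebra ℂ K] (r : ℕ) (z : Fin 2 → K) (t : Fin r → Kˣ)
    (ht : IsTorusField r z t) (X : NormalModel K) (hX : IsTorusStable z t X)
    (ω : TopForm K) (Δ : DVal K → ℝ) (hω : ω ≠ 0) (hk : IsKlt X ω Δ)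
    (hp : PseudoEff X (lcDiv ω Δ)) : ∃ W : NormalModel K, IsGoodMinimalModel X ω Δ W :=
  hM K X ω Δ hω hk hp (hT hS K r z t ht X hX ω Δ hω hk)

end

end Pool.Agent.LibK
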