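import Pool.Agent.LibK.Base

/-!
THEOREM K: the contract between part B (construction of smooth projective rational surfaces) and
part A (surfaces: semiampleness, pseudo-effective polytope, finite generation of adjoint rings).

A surface over the function field `L` is given by its set of prime divisors `prm`, the set `pts` of
the local rings of its closed points, its class group `Λ` with the intersection form, the canonical
class `K` and the class map `cl`. All other fields are facts. Part B constructs the surfaces, part A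
uses only the fields.
-/

set_option autoImplicit false

open Pool.Agent.LibGMM

namespace Pool.Agent.LibK

section

variable {L : Type} [Field L] [Algebra ℂ L]

/-- Sections of the divisor `D` over the set of prime divisors `P`. -/
def secD (P : Set (DVal L)) (D : P →₀ ℤ) : Submodule ℂ L where
  carrier := {f | ∀ ν : P, f ≠ 0 → 0 ≤ ν.1.ord f + D ν}
  zero_mem' := by
    intro ν h
    exact absurd rfl h
  add_mem' := by
    intro a b ha hb ν hab
    by_cases h0 : a = 0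
    · subst h0
      simp only [zero_add] at hab ⊢
      exact hb ν hab
    by_cases h1 : b = 0
    · subst h1
      simp only [add_zero] at hab ⊢
      exact ha ν hab
    have h2 := ν.1.ord_add a b h0 h1 hab
    have h3 := ha ν h0
    have h4 := hb ν h1
    rcases min_le_iff.1 h2 with h5 | h5 <;> omega
  smul_mem' := by
    intro c a ha ν hca
    have h0 : a ≠ 0 := by
      rintro rfl
      exact hca (smul_zero c)
    have h1 : algebraMap ℂ L c ≠ 0 := by
      intro h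
      apply hca
      rw [Algebra.smul_def, h, zero_mul]
    have h2 := ha ν h0
    rw [Algebra.smul_def, ν.1.ord_mul _ _ h1 h0, ν.1.ord_const, zero_add]
    exact h2

/-- The prime divisor `ν` passes through the point with local ring `x`. -/
def Thr (x : Subalgebra ℂ L) (ν : DVal L) : Prop := x ≤ ν.ring

/-- The section `f` of the divisor `D` does not vanish at the point `x`. -/
def GenAt (P : Set (DVal L)) (x : Subalgebra ℂ L) (D : P →₀ ℤ) (f : L) : Prop :=
  f ∈ secD P D ∧ f ≠ 0 ∧ ∀ ν : P, Thr x ν.1 → ν.1.ord f + D ν = 0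

end

/-- A smooth projective rational surface (see the header). -/
structure SurfA (L : Type) [Field L] [Algebra ℂ L] where
  /-- the prime divisors -/
  prm : Set (DVal L)
  /-- the local rings of the closed points -/
  pts : Set (Subalgebra ℂ L)
  /-- the class group -/
  Λ : Type
  [grp : AddCommGroup Λ]
  [free : Module.Free ℤ Λ]
  [fin : Module.Finite ℤ Λ]
  /-- the intersection form -/
  form : Λ →ₗ[ℤ] Λ →ₗ[ℤ] ℤ
  /-- the canonical class -/
  K : Λ
  /-- the class of a divisor -/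
  cl : (prm →₀ ℤ) →+ Λ
  /-- the dimension of the space of sections of a class -/
  h0 : Λ → ℕ
  /-- an ample class -/
  A : Λ
  -- divisors, functions, points
  plane : ∃ x y : L, IsPlane x y
  pts_nonempty : pts.Nonempty
  finDiv : FinDiv prm
  cl_surj : Function.Surjective cl
  cl_zero_iff : ∀ D : prm →₀ ℤ, cl D = 0 ↔ ∃ f : L, f ≠ 0 ∧ ∀ ν : prm, D ν = ν.1.ord f
  finSec : ∀ D : prm →₀ ℤ, Module.Finite ℂ (secD prm D)
  h0_cl : ∀ D : prm →₀ ℤ, h0 (cl D) = Module.finrank ℂ (secD prm D)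
  h0_zero : h0 0 = 1
  local_iff : ∀ x ∈ pts, ∀ f : L, f ∈ x ↔ ∀ ν ∈ prm, Thr x ν → 0 ≤ ν.ord f
  factorial : ∀ x ∈ pts, ∀ D : prm →₀ ℤ, ∃ f : L, f ≠ 0 ∧
    ∀ ν : prm, Thr x ν.1 → D ν = ν.1.ord f
  centre : ∀ V : ValuationSubring L, (∀ c : ℂ, algebraMap ℂ L c ∈ V) →
    ∃ x ∈ pts, ∀ f ∈ x, f ∈ V
  -- numerical facts
  symm : ∀ a b, form a b = form b a
  parity : ∀ D, Even (form D D + form K D)
  noether : form K K + Module.finrank ℤ Λ = 10
  rr : ∀ D, 2 + form D (D - K) ≤ 2 * ((h0 D : ℤ) + h0 (K - D))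
  h0_K : h0 K = 0
  exists_nef : ∃ l, (∀ ν : prm, 0 ≤ form l (cl (Finsupp.single ν 1))) ∧ 0 < h0 l ∧ form K l < 0
  -- the ample class
  A_sq : 0 < form A A
  hodge : ∀ D, form A D = 0 → D ≠ 0 → form D D < 0
  A_pos : ∀ ν : prm, 1 ≤ form A (cl (Finsupp.single ν 1))
  serre : ∀ F : Λ, ∃ n0 : ℕ, ∀ n : ℕ, n0 ≤ n →
    h0 (K - (n • A + F)) = 0 ∧
    2 * (h0 (n • A + F) : ℤ) = 2 + form (n • A + F) (n • A + F - K) ∧
    ∀ D : prm →₀ ℤ, cl D = n • A + F → ∀ x ∈ pts, ∃ f, GenAt prm x D f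
  A_bpf : ∀ D : prm →₀ ℤ, cl D = A → ∀ x ∈ pts, ∃ f, GenAt prm x D f
  -- curves
  C1 : ∀ (ν : prm) (D : Λ), form D (cl (Finsupp.single ν 1)) < 0 →
    h0 D = h0 (D - cl (Finsupp.single ν 1))
  C1' : ∀ ν μ : prm, ν ≠ μ → 0 ≤ form (cl (Finsupp.single ν 1)) (cl (Finsupp.single μ 1))
  C2 : ∀ (ν : prm) (D : Λ), 0 ≤ form D (cl (Finsupp.single ν 1)) →
    (h0 D : ℤ) ≤ h0 (D - cl (Finsupp.single ν 1)) + form D (cl (Finsupp.single ν 1)) + 1
  pa_nonneg : ∀ ν : prm, 0 ≤ 2 + form (cl (Finsupp.single ν 1)) (cl (Finsupp.single ν 1)) +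
    form K (cl (Finsupp.single ν 1))
  C3 : ∀ D E : prm →₀ ℤ, (∀ ν, 0 ≤ D ν) → (∀ ν, 0 ≤ E ν) → (∀ ν, D ν = 0 ∨ E ν = 0) →
    ∀ x ∈ pts, (∃ ν : prm, Thr x ν.1 ∧ 0 < D ν) → (∃ ν : prm, Thr x ν.1 ∧ 0 < E ν) →
      1 ≤ form (cl D) (cl E)
  C4 : ∀ ν : prm, ∃ c0 : ℤ, ∀ D : Λ, c0 ≤ form D (cl (Finsupp.single ν 1)) →
    2 * (h0 D : ℤ) ≤ 2 * h0 (D - cl (Finsupp.single ν 1)) +
      2 * form D (cl (Finsupp.single ν 1)) -
      form (cl (Finsupp.single ν 1)) (cl (Finsupp.single ν 1)) -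
      form K (cl (Finsupp.single ν 1))

attribute [instance] SurfA.grp SurfA.free SurfA.fin

section

variable {L : Type} [Field L] [Algebra ℂ L]

/-- `S'` is the blow-up of the surface `S` at the closed point `x`. -/
structure BlowUp (S : SurfA L) (x : Subalgebra ℂ L) (S' : SurfA L) where
  mem : x ∈ S.pts
  /-- the exceptional curve -/
  E : DVal L
  E_notMem : E ∉ S.prm
  prm_eq : S'.prm = insert E S.prm
  /-- the other points are points of the blow-up -/
  pts_old : ∀ y ∈ S.pts, y ≠ x → y ∈ S'.pts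
  /-- the class group of the blow-up: `(D, j)` is the class of `π* D + j E` -/
  φ : (S.Λ × ℤ) ≃+ S'.Λ
  form_eq : ∀ a b : S.Λ × ℤ, S'.form (φ a) (φ b) = S.form a.1 b.1 - a.2 * b.2
  K_eq : S'.K = φ (S.K, 1)
  cl_E : ∀ h : E ∈ S'.prm, S'.cl (Finsupp.single ⟨E, h⟩ 1) = φ (0, 1)
  /-- the multiplicity at `x` -/
  mult : S.prm → ℕ
  mult_pos : ∀ ν : S.prm, 0 < mult ν ↔ Thr x ν.1
  cl_old : ∀ (ν : S.prm) (h : ν.1 ∈ S'.prm), S'.cl (Finsupp.single ⟨ν.1, h⟩ 1) =
    φ (S.cl (Finsupp.single ν 1), -(mult ν : ℤ))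
  h0_nonneg : ∀ (D : S.Λ) (j : ℕ), S'.h0 (φ (D, j)) = S.h0 D
  h0_neg : ∀ D : S.prm →₀ ℤ, S'.h0 (φ (S.cl D, -1)) < S.h0 (S.cl D) ↔
    ∃ f, GenAt S.prm x D f

/-- The family `𝒮` of surfaces is closed under blow-ups of closed points. -/
def BlowUpClosed (𝒮 : SurfA L → Prop) : Prop :=
  ∀ S, 𝒮 S → ∀ x ∈ S.pts, ∃ S', 𝒮 S' ∧ Nonempty (BlowUp S x S')

/-- **Target of part B.** -/
def SurfaceModels : Prop :=
  ∀ (F : Type) [Field F] [Algebra ℂ F] (x y : F), IsPlane x y →
    ∀ T : Set (DVal F), T.Finite → (∀ ν ∈ T, ν.Divisorial) →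
      ∃ 𝒮 : SurfA F → Prop, BlowUpClosed 𝒮 ∧ ∃ S, 𝒮 S ∧ T ⊆ S.prm ∧ planePrimes x y ⊆ S.prm ∧
        (S.prm \ planePrimes x y).Finite ∧ (∀ ν ∈ S.prm, ν.Divisorial) ∧
        ∀ ω : TopForm F, ω ≠ 0 → ∃ D : S.prm →₀ ℤ, S.cl D = S.K ∧
          ∀ ν : S.prm, D ν = canOrd ν.1 ω

/-- **Target of part A.** -/
def SurfaceAR : Prop :=
  ∀ (F : Type) [Field F] [Algebra ℂ F] (𝒮 : SurfA F → Prop), BlowUpClosed 𝒮 → ∀ S, 𝒮 S →
    ∀ D : S.prm →₀ ℤ, S.cl D = S.K →
      ∀ κ : DVal F → ℤ, (∀ ν : S.prm, D ν = κ ν.1) → AdjointFG S.prm κ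

/-- The degree with respect to the ample class. -/
theorem SurfA.hasDegree (S : SurfA L) : HasDegree S.prm := by
  classical
  refine ⟨fun ν => if h : ν ∈ S.prm then
    (S.form S.A (S.cl (Finsupp.single ⟨ν, h⟩ 1))).toNat else 0, ?_, ?_⟩
  · intro ν hν
    have h1 := S.A_pos ⟨ν, hν⟩
    simp only [hν, dif_pos]
    omega
  · intro f hf
    have hfin : {ν : S.prm | ν.1.ord f ≠ 0}.Finite := by
      have h1 := S.finDiv f hf
      refine Set.Finite.of_finite_image (f := Subtype.val) (h1.subset ?_)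
        Subtype.val_injective.injOn
      rintro _ ⟨ν, hν, rfl⟩
      exact ⟨ν.2, hν⟩
    let D : S.prm →₀ ℤ := Finsupp.ofSupportFinite (fun ν : S.prm => ν.1.ord f) hfin
    have hD : S.cl D = 0 := (S.cl_zero_iff D).2 ⟨f, hf, fun ν => rfl⟩
    have h2 : S.cl D = D.sum fun ν m => m • S.cl (Finsupp.single ν 1) := by
      conv_lhs => rw [← Finsupp.sum_single D]
      rw [Finsupp.sum, map_sum, Finsupp.sum]
      refine Finset.sum_congr rfl fun ν _ => ?_
      rw [← map_zsmul, Finsupp.smul_single, smul_eq_mul, mul_one]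
    have h3 : ∑ ν ∈ D.support, D ν * S.form S.A (S.cl (Finsupp.single ν 1)) = 0 := by
      have h4 := congrArg (S.form S.A) (h2.symm.trans hD)
      rw [Finsupp.sum, map_sum, map_zero] at h4
      rw [← h4]
      refine Finset.sum_congr rfl fun ν _ => ?_
      rw [map_smul, smul_eq_mul]
    rw [finsum_mem_eq_sum_of_inter_support_eq (t := D.support.map (Function.Embedding.subtype _))]
    · rw [Finset.sum_map, ← h3]
      refine Finset.sum_congr rfl fun ν _ => ?_
      have h5 := S.A_pos ν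
      simp only [Function.Embedding.subtype_apply, ν.2, dif_pos, Subtype.coe_eta]
      rw [Int.toNat_of_nonneg (by omega)]
      rfl
    · ext ν
      simp only [Set.mem_inter_iff, Function.mem_support, Finset.coe_map, Set.mem_image,
        Finset.mem_coe, Finsupp.mem_support_iff]
      constructor
      · rintro ⟨h5, h6⟩
        refine ⟨⟨⟨ν, h5⟩, ?_, rfl⟩, h6⟩
        intro h7
        apply h6
        have h8 : ν.ord f = 0 := h7
        rw [h8, zero_mul]
      · rintro ⟨⟨μ, _, rfl⟩, h6⟩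
        exact ⟨μ.2, h6⟩

/-- Parts A and B together give the interface with part C. -/
theorem surfaceInterface_of (hB : SurfaceModels) (hA : SurfaceAR) : SurfaceInterface := by
  intro F _ _ x y hxy T hT hTd
  obtain ⟨𝒮, h𝒮, S, hS, hTS, hpl, hpf, hdiv, hK⟩ := hB F x y hxy T hT hTd
  refine ⟨S.prm, hTS, hpl, hpf, hdiv, S.finDiv, S.hasDegree, ?_⟩
  intro ω hω
  obtain ⟨D, hD, hDω⟩ := hK ω hω
  refine ⟨?_, hA F 𝒮 h𝒮 S hS D hD _ hDω⟩
  refine (D.hasFiniteSupport.image Subtype.val).subset ?_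
  rintro ν ⟨h1, h2⟩
  refine ⟨⟨ν, h1⟩, ?_, rfl⟩
  rw [Function.mem_support, hDω]
  exact h2

end

end Pool.Agent.LibK
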